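import Mathlib

/-!
# Proper fractional revival in trees only occurs between cospectral vertices

Sketch. Let `U(τ) e_a = α e_a + β e_b` with `β ≠ 0`. In an orthonormal eigenbasis `v_j` of the
adjacency matrix this reads `exp(i τ θ_j) v_j(a) = α v_j(a) + β v_j(b)`. Taking absolute values,
`v_j(a)^2 = v_j(b)^2 + κ v_j(a) v_j(b)` with one real number `κ` for all `j`, whence
`(A^k)_aa = (A^k)_bb + κ (A^k)_ab` for all `k`. For `k = dist(a, b)` in a tree, `(A^k)_ab = 1`, so
`κ` is an integer. If the distance is odd then `κ = 0` by parity. If it is even, the bipartition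
gives `U(-τ) e_a = U(τ) e_a`, so all eigenvalues in the support of `a` are integer multiples of
`π / τ`; since the minimal polynomial of `A^2` at `e_a` has rational coefficients, looking at the
sum of its roots shows that the squares of these eigenvalues are rational. Then the ratio
`c = v_j(b) / v_j(a)` is rational, and `c^2 + κ c - 1 = 0` forces `κ = 0`. Finally `κ = 0` says
`v_j(a)^2 = v_j(b)^2` for all `j`, which gives cospectrality.
-/

open Matrix Polynomial

namespace Pool.Agent.Results.MP_33c96f_co.TreeRevivalCospectral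

/-- The continuous-time quantum walk `U(t) = exp(i t A)` of a graph with adjacency matrix `A`. -/
noncomputable def quantumWalk {V : Type*} [Fintype V] [DecidableEq V] (X : SimpleGraph V)
    [DecidableRel X.Adj] (t : ℝ) : Matrix V V ℂ :=
  NormedSpace.exp ((Complex.I * (t : ℂ)) • X.adjMatrix ℂ)

/-- Proper fractional revival between `a` and `b`: at some time `τ > 0`,
`U(τ) e_a = α e_a + β e_b` with `α` and `β` both nonzero. -/
def ProperFractionalRevival {V : Type*} [Fintype V] [DecidableEq V] (X : SimpleGraph V)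
    [DecidableRel X.Adj] (a b : V) : Prop :=
  ∃ τ : ℝ, 0 < τ ∧ ∃ α β : ℂ, α ≠ 0 ∧ β ≠ 0 ∧
    quantumWalk X τ *ᵥ Pi.single a 1 = α • Pi.single a 1 + β • Pi.single b 1

/-- `a` and `b` are cospectral: the vertex-deleted subgraphs have the same characteristic
polynomial. -/
def IsCospectral {V : Type*} [Fintype V] [DecidableEq V] (X : SimpleGraph V)
    [DecidableRel X.Adj] (a b : V) : Prop :=
  ((X.induce {v | v ≠ a}).adjMatrix ℤ).charpoly = ((X.induce {v | v ≠ b}).adjMatrix ℤ).charpoly

section LinearAlgebra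

variable {V : Type*} [Fintype V] [DecidableEq V]

/-- spectral decomposition data of a real symmetric matrix -/
theorem exists_spectral (A : Matrix V V ℝ) (hA : A.IsSymm) :
    ∃ (P : Matrix V V ℝ) (θ : V → ℝ), P * Pᵀ = 1 ∧ Pᵀ * P = 1 ∧ A = P * diagonal θ * Pᵀ := by
  have hH : A.IsHermitian := by
    rw [Matrix.IsHermitian, conjTranspose_eq_transpose_of_trivial]; exact hA
  refine ⟨hH.eigenvectorUnitary, hH.eigenvalues, ?_, ?_, ?_⟩
  · have := Unitary.coe_mul_star_self hH.eigenvectorUnitary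
    rwa [Unitary.coe_star, star_eq_conjTranspose, conjTranspose_eq_transpose_of_trivial] at this
  · have := Unitary.coe_star_mul_self hH.eigenvectorUnitary
    rwa [star_eq_conjTranspose, conjTranspose_eq_transpose_of_trivial] at this
  · have := hH.spectral_theorem
    rw [Unitary.conjStarAlgAut_apply, star_eq_conjTranspose,
      conjTranspose_eq_transpose_of_trivial] at this
    exact this

theorem conj_pow {R : Type*} [CommRing R] (P D : Matrix V V R) (h1 : P * Pᵀ = 1)
    (h2 : Pᵀ * P = 1) (k : ℕ) :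
    (P * D * Pᵀ) ^ k = P * D ^ k * Pᵀ := by
  induction k with
  | zero => simp [h1]
  | succ k ih =>
    rw [pow_succ, ih, pow_succ]
    calc P * D ^ k * Pᵀ * (P * D * Pᵀ) = P * D ^ k * (Pᵀ * P) * D * Pᵀ := by
          simp only [Matrix.mul_assoc]
      _ = P * (D ^ k * D) * Pᵀ := by rw [h2]; simp only [Matrix.mul_assoc, Matrix.mul_one]

theorem conj_diagonal_apply {R : Type*} [CommRing R] (P : Matrix V V R) (d : V → R) (x y : V) :
    (P * diagonal d * Pᵀ) x y = ∑ j, d j * P x j * P y j := by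
  rw [Matrix.mul_apply]
  refine Finset.sum_congr rfl fun j _ => ?_
  rw [Matrix.mul_diagonal, transpose_apply]
  ring

theorem pow_apply_eq {A P : Matrix V V ℝ} {θ : V → ℝ} (h1 : P * Pᵀ = 1) (h2 : Pᵀ * P = 1)
    (hA : A = P * diagonal θ * Pᵀ) (k : ℕ) (x y : V) :
    (A ^ k) x y = ∑ j, θ j ^ k * P x j * P y j := by
  rw [hA, conj_pow P _ h1 h2, diagonal_pow, conj_diagonal_apply]
  simp

theorem aeval_apply_eq {A P : Matrix V V ℝ} {θ : V → ℝ} (h1 : P * Pᵀ = 1) (h2 : Pᵀ * P = 1)
    (hA : A = P * diagonal θ * Pᵀ) (r : ℝ[X]) (x y : V) :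
    (aeval (A ^ 2) r) x y = ∑ j, r.eval (θ j ^ 2) * P x j * P y j := by
  induction r using Polynomial.induction_on' with
  | add p q hp hq =>
    rw [map_add, Matrix.add_apply, hp, hq, ← Finset.sum_add_distrib]
    refine Finset.sum_congr rfl fun j _ => ?_
    rw [Polynomial.eval_add]; ring
  | monomial n c =>
    rw [aeval_monomial, ← Algebra.smul_def, Matrix.smul_apply, ← pow_mul, pow_apply_eq h1 h2 hA,
      smul_eq_mul, Finset.mul_sum]
    refine Finset.sum_congr rfl fun j _ => ?_
    rw [Polynomial.eval_monomial, ← pow_mul]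
    ring


/-! ### Rationality of the squares of the eigenvalues in the support -/

/-- a `ℚ`-linear retraction of `ℝ` onto `ℚ` -/
theorem exists_retraction : ∃ g : ℝ →ₗ[ℚ] ℚ, ∀ q : ℚ, g (q : ℝ) = q := by
  obtain ⟨g, hg⟩ := (Algebra.linearMap ℚ ℝ).exists_leftInverse_of_injective
    (LinearMap.ker_eq_bot.2 (algebraMap ℚ ℝ).injective)
  exact ⟨g, fun q => by simpa using LinearMap.congr_fun hg q⟩

theorem aeval_rat (A : Matrix V V ℤ) (r : ℚ[X]) (x y : V) :
    ∃ q : ℚ, (aeval ((A.map (Int.cast : ℤ → ℝ)) ^ 2) (r.map (algebraMap ℚ ℝ))) x y = q := by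
  induction r using Polynomial.induction_on' with
  | add p q hp hq =>
    obtain ⟨u, hu⟩ := hp
    obtain ⟨v, hv⟩ := hq
    exact ⟨u + v, by rw [Polynomial.map_add, map_add, Matrix.add_apply, hu, hv]; simp⟩
  | monomial n c =>
    refine ⟨c * ((A ^ (2 * n)) x y : ℤ), ?_⟩
    rw [Polynomial.map_monomial, aeval_monomial, ← Algebra.smul_def, Matrix.smul_apply, ← pow_mul]
    have : (A.map (Int.cast : ℤ → ℝ)) ^ (2 * n) = (A ^ (2 * n)).map (Int.cast : ℤ → ℝ) := by
      have := (map_pow (Int.castRingHom ℝ).mapMatrix A (2 * n)).symm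
      simpa using this
    rw [this]
    simp

theorem support_poly_rational (A : Matrix V V ℤ) {P : Matrix V V ℝ} {θ : V → ℝ}
    (h1 : P * Pᵀ = 1) (h2 : Pᵀ * P = 1)
    (hA : A.map (Int.cast : ℤ → ℝ) = P * diagonal θ * Pᵀ) (a : V)
    (Q : Finset ℝ) (hQ : ∀ y, y ∈ Q ↔ ∃ j, P a j ≠ 0 ∧ θ j ^ 2 = y) :
    ∃ r : ℚ[X], r.map (algebraMap ℚ ℝ) = ∏ y ∈ Q, (X - C y) := by
  classical
  obtain ⟨g, hg⟩ := exists_retraction
  set q : ℝ[X] := ∏ y ∈ Q, (X - C y) with hq
  have hmonic : q.Monic := monic_prod_of_monic _ _ fun y _ => monic_X_sub_C y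
  have hdeg : q.natDegree = Q.card := by
    rw [hq, natDegree_prod_of_monic _ _ fun y _ => monic_X_sub_C y]
    simp
  set r : ℚ[X] := ∑ k ∈ Finset.range (q.natDegree + 1), monomial k (g (q.coeff k)) with hr
  have hrcoeff : ∀ k, r.coeff k = g (q.coeff k) := by
    intro k
    rw [hr, finsetSum_coeff]
    simp only [coeff_monomial]
    rw [Finset.sum_ite_eq']
    split_ifs with h
    · rfl
    · have : q.natDegree < k := by simpa [Nat.lt_succ_iff] using h
      rw [coeff_eq_zero_of_natDegree_lt this, map_zero]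
  refine ⟨r, ?_⟩
  -- evaluations vanish
  have hqz : ∀ y ∈ Q, q.eval y = 0 := by
    intro y hy
    rw [hq, eval_prod]
    exact Finset.prod_eq_zero hy (by simp)
  have hqA : ∀ x, (aeval ((A.map (Int.cast : ℤ → ℝ)) ^ 2) q) x a = 0 := by
    intro x
    rw [aeval_apply_eq h1 h2 hA]
    refine Finset.sum_eq_zero fun j _ => ?_
    by_cases hj : P a j = 0
    · simp [hj]
    · rw [hqz _ ((hQ _).2 ⟨j, hj, rfl⟩)]; simp
  have hpow : ∀ k : ℕ, (A.map (Int.cast : ℤ → ℝ)) ^ k = (A ^ k).map (Int.cast : ℤ → ℝ) := by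
    intro k
    have := (map_pow (Int.castRingHom ℝ).mapMatrix A k).symm
    simpa using this
  have hrA : ∀ x, (aeval ((A.map (Int.cast : ℤ → ℝ)) ^ 2) (r.map (algebraMap ℚ ℝ))) x a = 0 := by
    intro x
    have e1 : (aeval ((A.map (Int.cast : ℤ → ℝ)) ^ 2) q) x a =
        ∑ k ∈ Finset.range (q.natDegree + 1), q.coeff k * ((A ^ (2 * k)) x a : ℤ) := by
      rw [aeval_eq_sum_range, Matrix.sum_apply]
      refine Finset.sum_congr rfl fun k _ => ?_
      rw [Matrix.smul_apply, ← pow_mul, hpow]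
      simp
    have e2 : (aeval ((A.map (Int.cast : ℤ → ℝ)) ^ 2) (r.map (algebraMap ℚ ℝ))) x a =
        ((g ((aeval ((A.map (Int.cast : ℤ → ℝ)) ^ 2) q x a)) : ℚ) : ℝ) := by
      rw [e1, map_sum, hr, Polynomial.map_sum, map_sum, Matrix.sum_apply, Rat.cast_sum]
      refine Finset.sum_congr rfl fun k _ => ?_
      rw [Polynomial.map_monomial, aeval_monomial, ← Algebra.smul_def, Matrix.smul_apply,
        ← pow_mul, hpow]
      have e3 : q.coeff k * (((A ^ (2 * k)) x a : ℤ) : ℝ) =
          (((A ^ (2 * k)) x a : ℤ) : ℚ) • q.coeff k := by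
        rw [Rat.smul_def, mul_comm]
        simp
      rw [e3, map_smul]
      simp [mul_comm]
    rw [e2, hqA x, map_zero]
    simp
  have hrz : ∀ y ∈ Q, (r.map (algebraMap ℚ ℝ)).eval y = 0 := by
    intro y hy
    obtain ⟨j, hj, rfl⟩ := (hQ y).1 hy
    have hz : ∑ x, P x j * (aeval ((A.map (Int.cast : ℤ → ℝ)) ^ 2)
        (r.map (algebraMap ℚ ℝ))) x a = 0 :=
      Finset.sum_eq_zero fun x _ => by rw [hrA]; simp
    have hz2 : ∑ x, P x j * (aeval ((A.map (Int.cast : ℤ → ℝ)) ^ 2)
        (r.map (algebraMap ℚ ℝ))) x a =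
        (r.map (algebraMap ℚ ℝ)).eval (θ j ^ 2) * P a j := by
      simp_rw [aeval_apply_eq h1 h2 hA, Finset.mul_sum]
      rw [Finset.sum_comm]
      have horth : ∀ i, ∑ x, P x j * P x i = if i = j then 1 else 0 := by
        intro i
        have := congrFun (congrFun h2 j) i
        rw [Matrix.mul_apply, Matrix.one_apply] at this
        simp only [transpose_apply] at this
        rw [this]
        simp only [eq_comm]
      calc ∑ i, ∑ x, P x j * ((r.map (algebraMap ℚ ℝ)).eval (θ i ^ 2) * P x i * P a i)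
          = ∑ i, (r.map (algebraMap ℚ ℝ)).eval (θ i ^ 2) * P a i * ∑ x, P x j * P x i := by
            refine Finset.sum_congr rfl fun i _ => ?_
            rw [Finset.mul_sum]
            refine Finset.sum_congr rfl fun x _ => ?_
            ring
        _ = _ := by
            simp_rw [horth]
            simp
    rw [hz2] at hz
    exact (mul_eq_zero.1 hz).resolve_right hj
  -- conclude by comparing degrees
  symm
  apply Polynomial.eq_of_degree_sub_lt_of_eval_finset_eq Q
  · rw [degree_lt_iff_coeff_zero]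
    intro m hm
    rw [coeff_sub, coeff_map, hrcoeff]
    rcases hm.lt_or_eq with h | h
    · rw [coeff_eq_zero_of_natDegree_lt (by omega : q.natDegree < m), map_zero, map_zero,
        sub_zero]
    · rw [← h, ← hdeg, hmonic.coeff_natDegree]
      have : g 1 = 1 := by simpa using hg 1
      rw [this]
      simp
  · intro y hy
    rw [hqz y hy, hrz y hy]


/-! ### The exponential -/

theorem exp_eq (A P : Matrix V V ℝ) (θ : V → ℝ)
    (h1 : P * Pᵀ = 1) (hA : A = P * diagonal θ * Pᵀ) (t : ℝ) :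
    NormedSpace.exp ((Complex.I * (t : ℂ)) • A.map (Complex.ofReal)) =
      P.map Complex.ofReal * diagonal (fun j => Complex.exp (Complex.I * t * θ j)) *
        (P.map Complex.ofReal)ᵀ := by
  have g1 : P.map Complex.ofReal * (P.map Complex.ofReal)ᵀ = 1 := by
    have := congrArg (Complex.ofRealHom.mapMatrix) h1
    rw [map_mul, map_one] at this
    rw [← this]
    rfl
  have hinv : (P.map Complex.ofReal)⁻¹ = (P.map Complex.ofReal)ᵀ := inv_eq_right_inv g1
  have hunit : IsUnit (P.map Complex.ofReal) := by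
    rw [Matrix.isUnit_iff_isUnit_det]
    exact Matrix.isUnit_det_of_right_inverse g1
  have hAc : A.map Complex.ofReal = P.map Complex.ofReal * diagonal (fun j => (θ j : ℂ)) *
      (P.map Complex.ofReal)ᵀ := by
    have := congrArg (Complex.ofRealHom.mapMatrix) hA
    rw [map_mul, map_mul] at this
    have hd : Complex.ofRealHom.mapMatrix (diagonal θ) = diagonal (fun j => (θ j : ℂ)) := by
      ext x y
      simp [Matrix.diagonal_apply]
      split_ifs <;> simp
    rw [hd] at this
    exact this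
  have : (Complex.I * (t : ℂ)) • A.map (Complex.ofReal) =
      P.map Complex.ofReal * diagonal (fun j => Complex.I * t * θ j) *
        (P.map Complex.ofReal)⁻¹ := by
    rw [hAc, hinv, ← Matrix.smul_mul, ← Matrix.mul_smul, ← diagonal_smul]
    rfl
  rw [this, Matrix.exp_conj _ _ hunit, hinv, Matrix.exp_diagonal]
  congr 3
  ext j
  rw [Pi.coe_exp, ← Complex.exp_eq_exp_ℂ]

theorem revival_coord (A P : Matrix V V ℝ) (θ : V → ℝ)
    (h1 : P * Pᵀ = 1) (h2 : Pᵀ * P = 1) (hA : A = P * diagonal θ * Pᵀ) (t : ℝ)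
    (a b : V) (α β : ℂ)
    (h : NormedSpace.exp ((Complex.I * (t : ℂ)) • A.map (Complex.ofReal)) *ᵥ Pi.single a 1 =
      α • Pi.single a 1 + β • Pi.single b 1) (j : V) :
    Complex.exp (Complex.I * t * θ j) * P a j = α * P a j + β * P b j := by
  have g2 : (P.map Complex.ofReal)ᵀ * P.map Complex.ofReal = 1 := by
    have := congrArg (Complex.ofRealHom.mapMatrix) h2
    rw [map_mul, map_one] at this
    rw [← this]
    rfl
  rw [exp_eq A P θ h1 hA] at h
  have h3 := congrArg (fun v => ((P.map Complex.ofReal)ᵀ *ᵥ v) j) h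
  simp only at h3
  rw [mulVec_mulVec, ← Matrix.mul_assoc, ← Matrix.mul_assoc, g2, Matrix.one_mul,
    Matrix.mulVec_add, Matrix.mulVec_smul, Matrix.mulVec_smul] at h3
  simpa [Matrix.mul_apply, Matrix.diagonal_apply] using h3

/-! ### From equal weights to cospectrality -/

theorem adjugate_diag_entry {R : Type*} [CommRing R] (M : Matrix V V R) (a : V) :
    M.adjugate a a =
      (M.submatrix (Subtype.val : {v // v ≠ a} → V) (Subtype.val : {v // v ≠ a} → V)).det := by
  rw [adjugate_apply, twoBlockTriangular_det _ (fun v => v ≠ a)]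
  · have e1 : (toSquareBlockProp (M.updateRow a (Pi.single a 1)) fun v => v ≠ a) =
        M.submatrix (Subtype.val : {v // v ≠ a} → V) (Subtype.val : {v // v ≠ a} → V) := by
      ext x y
      simp [toSquareBlockProp_def, Matrix.updateRow_ne x.2]
    have e2 : (toSquareBlockProp (M.updateRow a (Pi.single a 1)) fun v => ¬ v ≠ a) = 1 := by
      ext x y
      have hx : x.1 = a := not_not.1 x.2
      have hy : y.1 = a := not_not.1 y.2
      have hxy : x = y := Subtype.ext (hx.trans hy.symm)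
      subst hxy
      simp [toSquareBlockProp_def, hx]
    rw [e1, e2, det_one, mul_one]
  · intro i hi j hj
    rw [not_not] at hi
    subst hi
    simp [hj]

theorem charpoly_deleted (A : Matrix V V ℝ) (a : V) :
    (A.submatrix (Subtype.val : {v // v ≠ a} → V) (Subtype.val : {v // v ≠ a} → V)).charpoly =
      (charmatrix A).adjugate a a := by
  rw [adjugate_diag_entry, Matrix.charpoly]
  congr 1
  ext x y
  simp [charmatrix_apply, Matrix.diagonal_apply, Subtype.ext_iff]

theorem adjugate_charmatrix (A P : Matrix V V ℝ) (θ : V → ℝ)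
    (h1 : P * Pᵀ = 1) (h2 : Pᵀ * P = 1) (hA : A = P * diagonal θ * Pᵀ) (a : V) :
    (charmatrix A).adjugate a a =
      ∑ j, (P.map C).det ^ 2 * (∏ i ∈ Finset.univ.erase j, (X - C (θ i))) * C (P a j ^ 2) := by
  have g1 : P.map C * (P.map C)ᵀ = 1 := by
    have := congrArg ((C : ℝ →+* ℝ[X]).mapMatrix) h1
    rw [map_mul, map_one] at this
    rw [← this]
    rfl
  have g2 : (P.map C)ᵀ * P.map C = 1 := by
    have := congrArg ((C : ℝ →+* ℝ[X]).mapMatrix) h2
    rw [map_mul, map_one] at this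
    rw [← this]
    rfl
  have hc : charmatrix A = P.map C * diagonal (fun j => X - C (θ j)) * (P.map C)ᵀ := by
    have hd : (diagonal fun j => X - C (θ j) : Matrix V V ℝ[X]) =
        scalar V (X : ℝ[X]) - (C : ℝ →+* ℝ[X]).mapMatrix (diagonal θ) := by
      ext x y
      simp only [Matrix.diagonal_apply, Matrix.sub_apply, scalar_apply, RingHom.mapMatrix_apply,
        Matrix.map_apply]
      split_ifs <;> simp
    rw [charmatrix, hd, mul_sub, sub_mul]
    congr 1
    · rw [← (Matrix.scalar_commute (X : ℝ[X]) (fun r => Commute.all _ r) (P.map C)).eq,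
        Matrix.mul_assoc, g1, Matrix.mul_one]
    · rw [hA, map_mul, map_mul]
      rfl
  have ha1 : (P.map C).adjugate = (P.map C).det • (P.map C)ᵀ := by
    have := adjugate_mul (P.map C)
    have h3 := congrArg (fun M => M * (P.map C)ᵀ) this
    simp only [Matrix.mul_assoc, g1, Matrix.mul_one, Matrix.smul_mul, Matrix.one_mul] at h3
    exact h3
  have ha2 : ((P.map C)ᵀ).adjugate = (P.map C).det • (P.map C) := by
    rw [← adjugate_transpose, ha1]
    simp
  rw [hc, adjugate_mul_distrib, adjugate_mul_distrib, ha1, ha2, adjugate_diagonal]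
  rw [Matrix.mul_smul, Matrix.mul_smul, Matrix.smul_mul, Matrix.smul_apply, Matrix.smul_apply,
    ← Matrix.mul_assoc, conj_diagonal_apply, smul_eq_mul, smul_eq_mul, Finset.mul_sum,
    Finset.mul_sum]
  refine Finset.sum_congr rfl fun j _ => ?_
  rw [Matrix.map_apply, C_pow]
  ring


theorem charpoly_deleted_eq (A P : Matrix V V ℝ) (θ : V → ℝ)
    (h1 : P * Pᵀ = 1) (h2 : Pᵀ * P = 1) (hA : A = P * diagonal θ * Pᵀ) (a b : V)
    (hab : ∀ j, P a j ^ 2 = P b j ^ 2) :
    (A.submatrix (Subtype.val : {v // v ≠ a} → V) (Subtype.val : {v // v ≠ a} → V)).charpoly =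
    (A.submatrix (Subtype.val : {v // v ≠ b} → V) (Subtype.val : {v // v ≠ b} → V)).charpoly := by
  rw [charpoly_deleted, charpoly_deleted, adjugate_charmatrix A P θ h1 h2 hA,
    adjugate_charmatrix A P θ h1 h2 hA]
  simp_rw [hab]

/-! ### Fractional revival in a bipartite graph with a shortest path counted once -/

theorem sq_add_four {m : ℤ} {c : ℚ} (h : c ^ 2 + m * c - 1 = 0) : m = 0 := by
  have h1 : IsSquare (((m ^ 2 + 4 : ℤ)) : ℚ) := ⟨2 * c + m, by push_cast; linarith⟩
  rw [Rat.isSquare_intCast_iff] at h1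
  obtain ⟨t, ht⟩ := h1
  by_contra hm
  have hm1 : 1 ≤ |m| := Int.one_le_abs hm
  have ht1 : |t| * |t| = |m| ^ 2 + 4 := by rw [sq_abs, ht, abs_mul_abs_self]
  have ht0 : 0 ≤ |t| := abs_nonneg t
  have h2 : |m| < |t| := by nlinarith
  have h3 : |t| < |m| + 2 := by nlinarith
  have h4 : |t| = |m| + 1 := by omega
  rw [h4] at ht1
  have h5 : 2 * |m| = 3 := by linarith
  omega

theorem parity_pow (A : Matrix V V ℤ) (s : V → ℤ) (hs : ∀ x, s x * s x = 1)
    (hbip : ∀ x y, A x y ≠ 0 → s x = - s y) (k : ℕ) (x y : V) :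
    s x * s y * (A ^ k) x y = (-1) ^ k * (A ^ k) x y := by
  induction k generalizing x y with
  | zero =>
    by_cases hxy : x = y
    · subst hxy; simp [hs]
    · simp [hxy]
  | succ k ih =>
    rw [pow_succ, Matrix.mul_apply, Finset.mul_sum, Finset.mul_sum]
    refine Finset.sum_congr rfl fun z _ => ?_
    by_cases hz : A z y = 0
    · simp [hz]
    · have h1 := ih x z
      have h2 : s y = - s z := by rw [hbip z y hz]; ring
      calc s x * s y * ((A ^ k) x z * A z y) = -(s x * s z * (A ^ k) x z) * A z y := by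
            rw [h2]; ring
        _ = _ := by rw [h1]; ring

theorem exp_neg_mulVec (A : Matrix V V ℤ) (s : V → ℤ) (hs : ∀ x, s x * s x = 1)
    (hbip : ∀ x y, A x y ≠ 0 → s x = - s y) (a b : V) (hsab : s a * s b = 1) (τ : ℝ) (α β : ℂ)
    (hU : NormedSpace.exp ((Complex.I * (τ : ℂ)) •
      (A.map (Int.cast : ℤ → ℝ)).map (Complex.ofReal)) *ᵥ Pi.single a 1 =
      α • Pi.single a 1 + β • Pi.single b 1) :
    NormedSpace.exp ((Complex.I * ((-τ : ℝ) : ℂ)) •
      (A.map (Int.cast : ℤ → ℝ)).map (Complex.ofReal)) *ᵥ Pi.single a 1 =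
      α • Pi.single a 1 + β • Pi.single b 1 := by
  set Ac : Matrix V V ℂ := (A.map (Int.cast : ℤ → ℝ)).map (Complex.ofReal) with hAc
  set D : Matrix V V ℂ := diagonal fun x => ((s x : ℤ) : ℂ) with hD
  have hDD : D * D = 1 := by
    rw [hD, diagonal_mul_diagonal]
    have : (fun i => ((s i : ℤ) : ℂ) * ((s i : ℤ) : ℂ)) = 1 := by
      ext i
      rw [← Int.cast_mul, hs]
      simp
    rw [this]
    exact diagonal_one
  have hDinv : D⁻¹ = D := inv_eq_right_inv hDD
  have hDunit : IsUnit D := by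
    rw [Matrix.isUnit_iff_isUnit_det]
    exact Matrix.isUnit_det_of_right_inverse hDD
  have hconj : (Complex.I * ((-τ : ℝ) : ℂ)) • Ac = D * ((Complex.I * (τ : ℂ)) • Ac) * D⁻¹ := by
    rw [hDinv, Matrix.mul_smul, Matrix.smul_mul]
    have : D * Ac * D = -Ac := by
      ext x y
      rw [hD, Matrix.mul_diagonal, Matrix.diagonal_mul, Matrix.neg_apply, hAc]
      simp only [Matrix.map_apply]
      by_cases hxy : A x y = 0
      · simp [hxy]
      · have h3 := hbip x y hxy
        have h4 : (s x : ℂ) * s y = -1 := by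
          have : s x * s y = -1 := by rw [h3]; have := hs y; linarith
          exact_mod_cast this
        calc (s x : ℂ) * ((A x y : ℝ) : ℂ) * s y = ((s x : ℂ) * s y) * ((A x y : ℝ) : ℂ) := by
              ring
          _ = _ := by rw [h4]; ring
    rw [this]
    ext x y
    simp
  rw [hconj, Matrix.exp_conj _ _ hDunit, hDinv, ← mulVec_mulVec, ← mulVec_mulVec]
  have e1 : ∀ x, D *ᵥ Pi.single x 1 = ((s x : ℤ) : ℂ) • Pi.single x 1 := by
    intro x
    rw [hD]
    ext y
    rw [mulVec_diagonal]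
    by_cases hxy : y = x
    · subst hxy; simp
    · simp [hxy]
  rw [e1, mulVec_smul, hU, smul_add, mulVec_add, mulVec_smul, mulVec_smul, mulVec_smul,
    mulVec_smul, e1, e1]
  have e2 : (s a : ℂ) * s a = 1 := by exact_mod_cast hs a
  have e3 : (s a : ℂ) * s b = 1 := by exact_mod_cast hsab
  rw [smul_smul, smul_smul, smul_smul, smul_smul]
  congr 2
  · linear_combination α * e2
  · linear_combination β * e3

theorem core (A : Matrix V V ℤ) {P : Matrix V V ℝ} {θ : V → ℝ}
    (h1 : P * Pᵀ = 1) (h2 : Pᵀ * P = 1)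
    (hA : A.map (Int.cast : ℤ → ℝ) = P * diagonal θ * Pᵀ)
    (s : V → ℤ) (hs : ∀ x, s x * s x = 1) (hbip : ∀ x y, A x y ≠ 0 → s x = - s y)
    (a b : V) (hab : a ≠ b) (d : ℕ) (hd : (A ^ d) a b = 1) (τ : ℝ) (hτ : τ ≠ 0)
    (α β : ℂ) (hβ : β ≠ 0)
    (hU : NormedSpace.exp ((Complex.I * (τ : ℂ)) •
      (A.map (Int.cast : ℤ → ℝ)).map (Complex.ofReal)) *ᵥ Pi.single a 1 =
      α • Pi.single a 1 + β • Pi.single b 1) (j : V) :
    P a j ^ 2 = P b j ^ 2 := by
  classical
  have hcoord := revival_coord _ P θ h1 h2 hA τ a b α β hU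
  -- rows of `P` are orthonormal
  have hrow : ∀ x y, ∑ i, P x i * P y i = if x = y then 1 else 0 := by
    intro x y
    have := congrFun (congrFun h1 x) y
    rw [Matrix.mul_apply, Matrix.one_apply] at this
    simpa using this
  -- real and imaginary parts
  set u := α.re with hu
  set v := α.im with hv
  set w := β.re with hw
  set z := β.im with hz
  have hmod : ∀ i, P a i ^ 2 = (u ^ 2 + v ^ 2) * P a i ^ 2 + (w ^ 2 + z ^ 2) * P b i ^ 2 +
      2 * (u * w + v * z) * (P a i * P b i) := by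
    intro i
    have h3 := congrArg Complex.normSq (hcoord i)
    rw [Complex.normSq_mul] at h3
    have h4 : Complex.normSq (Complex.exp (Complex.I * τ * θ i)) = 1 := by
      rw [Complex.normSq_eq_norm_sq]
      have : Complex.I * τ * θ i = ((τ * θ i : ℝ) : ℂ) * Complex.I := by push_cast; ring
      rw [this, Complex.norm_exp_ofReal_mul_I]
      norm_num
    rw [h4, one_mul, Complex.normSq_ofReal, Complex.normSq_apply] at h3
    simp only [Complex.add_re, Complex.mul_re, Complex.ofReal_re, Complex.ofReal_im,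
      Complex.add_im, Complex.mul_im] at h3
    rw [hu, hv, hw, hz]
    linear_combination h3
  have hnorm : u ^ 2 + v ^ 2 + (w ^ 2 + z ^ 2) = 1 := by
    have h3 : ∑ i, P a i ^ 2 = (u ^ 2 + v ^ 2) * ∑ i, P a i ^ 2 +
        (w ^ 2 + z ^ 2) * ∑ i, P b i ^ 2 + 2 * (u * w + v * z) * ∑ i, P a i * P b i := by
      rw [Finset.mul_sum, Finset.mul_sum, Finset.mul_sum, ← Finset.sum_add_distrib,
        ← Finset.sum_add_distrib]
      exact Finset.sum_congr rfl fun i _ => hmod i
    have e1 : ∑ i, P a i ^ 2 = 1 := by simpa [sq] using hrow a a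
    have e2 : ∑ i, P b i ^ 2 = 1 := by simpa [sq] using hrow b b
    have e3 : ∑ i, P a i * P b i = 0 := by simpa [hab] using hrow a b
    rw [e1, e2, e3] at h3
    linarith
  have hβn : w ^ 2 + z ^ 2 ≠ 0 := by
    intro h
    apply hβ
    apply Complex.ext
    · show w = 0; nlinarith [sq_nonneg w, sq_nonneg z]
    · show z = 0; nlinarith [sq_nonneg w, sq_nonneg z]
  set κ : ℝ := 2 * (u * w + v * z) / (w ^ 2 + z ^ 2) with hκ
  have hrel : ∀ i, P a i ^ 2 = P b i ^ 2 + κ * (P a i * P b i) := by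
    intro i
    have h3 := hmod i
    have h4 : (w ^ 2 + z ^ 2) * P a i ^ 2 = (w ^ 2 + z ^ 2) * P b i ^ 2 +
        2 * (u * w + v * z) * (P a i * P b i) := by
      have : w ^ 2 + z ^ 2 = 1 - (u ^ 2 + v ^ 2) := by linarith
      nlinarith
    have h5 : (w ^ 2 + z ^ 2) * κ = 2 * (u * w + v * z) := by
      rw [hκ]; field_simp
    apply mul_left_cancel₀ hβn
    linear_combination h4 - (P a i * P b i) * h5
  have hpowr : ∀ k : ℕ, (A.map (Int.cast : ℤ → ℝ)) ^ k = (A ^ k).map (Int.cast : ℤ → ℝ) := by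
    intro k
    have := (map_pow (Int.castRingHom ℝ).mapMatrix A k).symm
    simpa using this
  have hwalk : ∀ k : ℕ, (((A ^ k) a a : ℤ) : ℝ) = ((A ^ k) b b : ℤ) +
      κ * ((A ^ k) a b : ℤ) := by
    intro k
    have e : ∀ x y, (((A ^ k) x y : ℤ) : ℝ) = ∑ i, θ i ^ k * P x i * P y i := by
      intro x y
      rw [← pow_apply_eq h1 h2 hA, hpowr]; rfl
    rw [e, e, e, Finset.mul_sum, ← Finset.sum_add_distrib]
    refine Finset.sum_congr rfl fun i _ => ?_
    have := hrel i
    calc θ i ^ k * P a i * P a i = θ i ^ k * P a i ^ 2 := by ring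
      _ = _ := by rw [this]; ring
  -- `κ` is an integer
  set m : ℤ := (A ^ d) a a - (A ^ d) b b with hm
  have hκm : κ = m := by
    have := hwalk d
    rw [hd] at this
    rw [hm]
    push_cast at this ⊢
    linarith
  suffices hm0 : m = 0 by
    have := hrel j
    rw [hκm, hm0] at this
    simpa using this
  have hpar := parity_pow A s hs hbip
  have hsab : s a * s b = 1 ∨ s a * s b = -1 := by
    have : (s a * s b) * (s a * s b) = 1 := by
      calc (s a * s b) * (s a * s b) = (s a * s a) * (s b * s b) := by ring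
        _ = 1 := by rw [hs, hs]; norm_num
    exact mul_self_eq_one_iff.1 this
  rcases hsab with hsab | hsab
  swap
  · -- odd distance
    have hdd := hpar d a b
    rw [hd, hsab] at hdd
    have hodd : (-1 : ℤ) ^ d = -1 := by linarith
    have ha := hpar d a a
    have hb := hpar d b b
    rw [hs, hodd] at ha hb
    have : m = 0 := by rw [hm]; linarith
    exact this
  -- even distance: `U(-τ) e_a = U(τ) e_a`
  have hneg := exp_neg_mulVec A s hs hbip a b hsab τ α β hU
  have hcoord' := revival_coord _ P θ h1 h2 hA (-τ) a b α β hneg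
  have hexp : ∀ i, P a i ≠ 0 →
      Complex.exp (Complex.I * τ * θ i) = Complex.exp (-(Complex.I * τ * θ i)) := by
    intro i hi
    have h3 := (hcoord i).trans (hcoord' i).symm
    have h4 : (P a i : ℂ) ≠ 0 := by exact_mod_cast hi
    have h5 := mul_right_cancel₀ h4 h3
    rw [h5]
    congr 1
    push_cast
    ring
  have hint : ∀ i, P a i ≠ 0 → ∃ n : ℤ, θ i = Real.pi / τ * n := by
    intro i hi
    have h3 := hexp i hi
    have h4 : Complex.exp (2 * (Complex.I * τ * θ i)) = 1 := by
      rw [two_mul, Complex.exp_add]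
      nth_rewrite 1 [h3]
      rw [← Complex.exp_add]
      simp
    obtain ⟨n, hn⟩ := Complex.exp_eq_one_iff.1 h4
    refine ⟨n, ?_⟩
    have h5 : (τ : ℂ) * θ i = n * Real.pi := by
      have : (2 * Complex.I) * ((τ : ℂ) * θ i) = (2 * Complex.I) * (n * Real.pi) := by
        linear_combination hn
      exact mul_left_cancel₀ (by simp) this
    have h6 : τ * θ i = n * Real.pi := by exact_mod_cast h5
    field_simp
    linarith
  -- squares of the eigenvalues in the support are rational
  set Q : Finset ℝ := (Finset.univ.filter fun i => P a i ≠ 0).image fun i => θ i ^ 2 with hQdef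
  have hQ : ∀ y, y ∈ Q ↔ ∃ i, P a i ≠ 0 ∧ θ i ^ 2 = y := by
    intro y; simp [hQdef]
  obtain ⟨r, hr⟩ := support_poly_rational A h1 h2 hA a Q hQ
  have hsum : ∃ q : ℚ, ∑ y ∈ Q, y = q := by
    refine ⟨-r.nextCoeff, ?_⟩
    have h3 := prod_X_sub_C_nextCoeff (s := Q) (fun y => y)
    rw [← hr, nextCoeff_map (algebraMap ℚ ℝ).injective] at h3
    push_cast
    simp only [eq_ratCast] at h3
    linarith
  have hQn : ∀ y ∈ Q, ∃ n : ℤ, y = (Real.pi / τ) ^ 2 * (n : ℝ) ^ 2 := by
    intro y hy
    obtain ⟨i, hi, rfl⟩ := (hQ y).1 hy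
    obtain ⟨n, hn⟩ := hint i hi
    exact ⟨n, by rw [hn]; ring⟩
  have hQrat : ∀ y ∈ Q, ∃ q : ℚ, y = q := by
    choose! n hn using hQn
    obtain ⟨q, hq⟩ := hsum
    set N : ℤ := ∑ y ∈ Q, n y ^ 2 with hN
    have h3 : (q : ℝ) = (Real.pi / τ) ^ 2 * N := by
      rw [← hq, hN]
      push_cast
      rw [Finset.mul_sum]
      exact Finset.sum_congr rfl fun y hy => hn y hy
    by_cases hN0 : N = 0
    · intro y hy
      refine ⟨0, ?_⟩
      have h4 : n y ^ 2 = 0 := by
        have := (Finset.sum_eq_zero_iff_of_nonneg (fun y _ => sq_nonneg (n y))).1 (hN ▸ hN0)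
        exact this y hy
      have h5 : ((n y : ℤ) : ℝ) ^ 2 = 0 := by exact_mod_cast h4
      rw [hn y hy, h5]; simp
    · intro y hy
      refine ⟨q / N * (n y) ^ 2, ?_⟩
      have h4 : (N : ℝ) ≠ 0 := by exact_mod_cast hN0
      have h5 : (Real.pi / τ) ^ 2 = q / N := by rw [h3]; field_simp
      calc y = (Real.pi / τ) ^ 2 * (n y : ℝ) ^ 2 := hn y hy
        _ = ((q / N * (n y) ^ 2 : ℚ) : ℝ) := by rw [h5]; push_cast; ring
  -- a vertex in the support
  obtain ⟨j₀, hj₀⟩ : ∃ i, P a i ≠ 0 := by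
    by_contra hcon
    push Not at hcon
    have := hrow a a
    simp [hcon] at this
  set y₀ := θ j₀ ^ 2 with hy₀
  have hy₀Q : y₀ ∈ Q := (hQ _).2 ⟨j₀, hj₀, rfl⟩
  -- the interpolating polynomial
  choose! ρ hρ using hQrat
  set f : ℚ[X] := ∏ y ∈ Q.erase y₀, (X - C (ρ y)) with hf
  have hfeval : ∀ t : ℝ, (f.map (algebraMap ℚ ℝ)).eval t = ∏ y ∈ Q.erase y₀, (t - y) := by
    intro t
    rw [hf, Polynomial.map_prod, eval_prod]
    refine Finset.prod_congr rfl fun y hy => ?_
    simp [← hρ y (Finset.mem_of_mem_erase hy)]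
  have hf0 : (f.map (algebraMap ℚ ℝ)).eval y₀ ≠ 0 := by
    rw [hfeval, Finset.prod_ne_zero_iff]
    intro y hy
    exact sub_ne_zero.2 (Finset.ne_of_mem_erase hy).symm
  have hfz : ∀ i, P a i ≠ 0 → θ i ^ 2 ≠ y₀ → (f.map (algebraMap ℚ ℝ)).eval (θ i ^ 2) = 0 := by
    intro i hi hne
    rw [hfeval]
    exact Finset.prod_eq_zero (Finset.mem_erase.2 ⟨hne, (hQ _).2 ⟨i, hi, rfl⟩⟩) (sub_self _)
  -- ratio is constant on the class of `y₀`
  have hratio : ∀ i, P a i ≠ 0 → θ i ^ 2 = y₀ → P b i * P a j₀ = P a i * P b j₀ := by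
    intro i hi hy
    have hee : Complex.exp (Complex.I * τ * θ i) = Complex.exp (Complex.I * τ * θ j₀) := by
      rcases sq_eq_sq_iff_eq_or_eq_neg.1 hy with h | h
      · rw [h]
      · rw [hexp j₀ hj₀, h]
        congr 1
        push_cast
        ring
    have e1 := hcoord i
    have e2 := hcoord j₀
    rw [hee] at e1
    have e3 : β * ((P b i : ℂ) * P a j₀) = β * ((P a i : ℂ) * P b j₀) := by
      linear_combination (P a i : ℂ) * e2 - (P a j₀ : ℂ) * e1
    exact_mod_cast mul_left_cancel₀ hβ e3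
  obtain ⟨qa, hqa⟩ := aeval_rat A f a a
  obtain ⟨qb, hqb⟩ := aeval_rat A f a b
  rw [aeval_apply_eq h1 h2 hA] at hqa hqb
  have hqab : (qb : ℝ) * P a j₀ = qa * P b j₀ := by
    rw [← hqa, ← hqb, Finset.sum_mul, Finset.sum_mul]
    refine Finset.sum_congr rfl fun i _ => ?_
    by_cases hi : P a i = 0
    · simp [hi]
    by_cases hy : θ i ^ 2 = y₀
    · have := hratio i hi hy
      calc _ = eval (θ i ^ 2) (Polynomial.map (algebraMap ℚ ℝ) f) * P a i * (P b i * P a j₀) := by
            ring
        _ = _ := by rw [this]; ring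
    · rw [hfz i hi hy]; simp
  have hqa0 : (qa : ℝ) ≠ 0 := by
    rw [← hqa]
    have h3 : ∑ i, eval (θ i ^ 2) (Polynomial.map (algebraMap ℚ ℝ) f) * P a i * P a i =
        eval y₀ (Polynomial.map (algebraMap ℚ ℝ) f) *
          ∑ i, (if θ i ^ 2 = y₀ then P a i ^ 2 else 0) := by
      rw [Finset.mul_sum]
      refine Finset.sum_congr rfl fun i _ => ?_
      by_cases hi : P a i = 0
      · simp [hi]
      by_cases hy : θ i ^ 2 = y₀
      · rw [if_pos hy, hy]; ring
      · rw [hfz i hi hy, if_neg hy]; simp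
    rw [h3]
    refine mul_ne_zero hf0 (ne_of_gt ?_)
    refine lt_of_lt_of_le (pow_pos (abs_pos.2 hj₀) 2) ?_
    rw [sq_abs]
    have := Finset.single_le_sum (f := fun i => if θ i ^ 2 = y₀ then P a i ^ 2 else 0)
      (fun i _ => by positivity) (Finset.mem_univ j₀)
    simpa [hy₀] using this
  -- the ratio is rational, and a root of `X ^ 2 + m X - 1`
  have hc : (P b j₀ / P a j₀ : ℝ) = ((qb / qa : ℚ) : ℝ) := by
    push_cast
    rw [div_eq_div_iff hj₀ hqa0]
    linarith
  have hroot : ((qb / qa : ℚ)) ^ 2 + m * (qb / qa : ℚ) - 1 = 0 := by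
    have h3 := hrel j₀
    rw [hκm] at h3
    have h4 : (P b j₀ / P a j₀ : ℝ) ^ 2 + m * (P b j₀ / P a j₀) - 1 = 0 := by
      field_simp
      linarith
    rw [hc] at h4
    exact_mod_cast h4
  exact sq_add_four hroot

end LinearAlgebra

/-! ### Trees -/

variable {V : Type*} [Fintype V] [DecidableEq V]

theorem adjMatrix_pow_dist_eq_one (T : SimpleGraph V) [DecidableRel T.Adj] (hT : T.IsTree)
    (a b : V) : (T.adjMatrix ℤ ^ T.dist a b) a b = 1 := by
  rw [SimpleGraph.adjMatrix_pow_apply_eq_card_walk]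
  have : Fintype.card {p : T.Walk a b | p.length = T.dist a b} = 1 := by
    rw [Fintype.card_eq_one_iff]
    obtain ⟨p, hp, hl⟩ := hT.connected.exists_path_of_dist a b
    refine ⟨⟨p, hl⟩, ?_⟩
    rintro ⟨q, hq⟩
    have hq' : q.length = T.dist a b := hq
    have hqp : q.IsPath := q.isPath_of_length_eq_dist hq'
    exact Subtype.ext ((hT.existsUnique_path a b).unique hqp hp)
  rw [this]
  simp

theorem charpoly_induce (T : SimpleGraph V) [DecidableRel T.Adj] (a : V) :
    ((T.induce {v | v ≠ a}).adjMatrix ℤ).charpoly.map (Int.castRingHom ℝ) =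
      ((T.adjMatrix ℝ).submatrix (Subtype.val : {v // v ≠ a} → V)
        (Subtype.val : {v // v ≠ a} → V)).charpoly := by
  rw [← Matrix.charpoly_map]
  congr 1
  ext x y
  simp [SimpleGraph.adjMatrix_apply]

/-- **In every (finite) tree, any two vertices between which proper fractional revival occurs are
cospectral.** -/
theorem result {V : Type*} [Fintype V] [DecidableEq V] (T : SimpleGraph V)
    [DecidableRel T.Adj] (hT : T.IsTree) (a b : V) (hab : a ≠ b)
    (h : ProperFractionalRevival T a b) : IsCospectral T a b := by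
  obtain ⟨τ, hτ, α, β, -, hβ, hU⟩ := h
  obtain ⟨P, θ, h1, h2, hA⟩ := exists_spectral (T.adjMatrix ℝ) T.isSymm_adjMatrix
  have hmapR : (T.adjMatrix ℤ).map (Int.cast : ℤ → ℝ) = T.adjMatrix ℝ := by
    ext x y
    simp [SimpleGraph.adjMatrix_apply]
  have hmapC : ((T.adjMatrix ℤ).map (Int.cast : ℤ → ℝ)).map (Complex.ofReal) =
      T.adjMatrix ℂ := by
    ext x y
    simp only [Matrix.map_apply, SimpleGraph.adjMatrix_apply]
    split_ifs <;> simp
  have hsq : ∀ j, P a j ^ 2 = P b j ^ 2 := by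
    refine core (T.adjMatrix ℤ) h1 h2 (hmapR.trans hA) (fun x => (-1) ^ T.dist a x) ?_ ?_ a b hab
      (T.dist a b) (adjMatrix_pow_dist_eq_one T hT a b) τ hτ.ne' α β hβ ?_
    · intro x
      rw [← mul_pow]
      norm_num
    · intro x y hxy
      have hadj : T.Adj x y := by
        by_contra hcon
        exact hxy (by simp [SimpleGraph.adjMatrix_apply, hcon])
      rcases hT.dist_eq_dist_add_one_of_adj a hadj with h | h
      · rw [h, pow_succ]; ring
      · rw [h, pow_succ]; ring
    · rw [hmapC]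
      exact hU
  have := charpoly_deleted_eq (T.adjMatrix ℝ) P θ h1 h2 hA a b hsq
  rw [← charpoly_induce, ← charpoly_induce] at this
  exact Polynomial.map_injective _ Int.cast_injective this

end Pool.Agent.Results.MP_33c96f_co.TreeRevivalCospectral
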